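import Pool.Agent.H37.CTT.Stmts

/-!
Row SC13 of the board `ctt`: the conductor of case (II) for `Sp_4(q)`
-/

set_option autoImplicit false

namespace Pool.CND

open Finset Polynomial Matrix

theorem sc13_entries {F : Type} [Field F] (g : Matrix.SpecialLinearGroup (Fin 4) F)
    (hg : g ∈ Sp4 F) (h : Heis g.1) :
    g.1 0 0 = 1 ∧ g.1 1 0 = 0 ∧ g.1 2 0 = 0 ∧ g.1 3 0 = 0 ∧ g.1 1 1 = 1 ∧ g.1 2 1 = 0 ∧
      g.1 3 1 = 0 ∧ g.1 1 2 = 0 ∧ g.1 2 2 = 1 ∧ g.1 3 2 = 0 ∧ g.1 3 3 = 1 ∧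
      g.1 1 3 = g.1 0 2 ∧ g.1 2 3 = -g.1 0 1 := by
  obtain ⟨h00, hm, h33⟩ := h
  have e10 : g.1 1 0 = 0 := by simpa using hm 1 0 (by decide) (by decide)
  have e20 : g.1 2 0 = 0 := by simpa using hm 2 0 (by decide) (by decide)
  have e30 : g.1 3 0 = 0 := by simpa using hm 3 0 (by decide) (by decide)
  have e11 : g.1 1 1 = 1 := by simpa using hm 1 1 (by decide) (by decide)
  have e21 : g.1 2 1 = 0 := by simpa using hm 2 1 (by decide) (by decide)
  have e31 : g.1 3 1 = 0 := by simpa using hm 3 1 (by decide) (by decide)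
  have e12 : g.1 1 2 = 0 := by simpa using hm 1 2 (by decide) (by decide)
  have e22 : g.1 2 2 = 1 := by simpa using hm 2 2 (by decide) (by decide)
  have e32 : g.1 3 2 = 0 := by simpa using hm 3 2 (by decide) (by decide)
  have hg' : g.1ᵀ * J4s F * g.1 = J4s F := hg
  have f13 := congrFun (congrFun hg' 1) 3
  have f23 := congrFun (congrFun hg' 2) 3
  simp only [Matrix.mul_apply, Fin.sum_univ_four, Matrix.transpose_apply] at f13 f23
  simp [J4s, e10, e20, e30, e11, e21, e31, e12, e22, e32, h33, h00] at f13 f23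
  refine ⟨h00, e10, e20, e30, e11, e21, e31, e12, e22, e32, h33, ?_, ?_⟩
  · linear_combination -f23
  · linear_combination f13

theorem sc13_val (q n D cM cW cI : ℚ) (hq : q ≠ 0) (hq1 : q - 1 ≠ 0) (hq2 : q + 1 ≠ 0)
    (hn : n ≠ 0) (hM : cM ≠ 0) (hW : cW = q * cM) (hI : cI = n * cW)
    (hD : D * (q ^ 2 - 1) = n * (q ^ 2 + 1)) :
    (cM * (2 * D) + (cW - cM) * D) / cI = (q ^ 2 + 1) / (q * (q - 1)) := by
  have h21 : q ^ 2 - 1 ≠ 0 := by
    have : q ^ 2 - 1 = (q - 1) * (q + 1) := by ring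
    rw [this]
    exact mul_ne_zero hq1 hq2
  have hD' : D = n * (q ^ 2 + 1) / (q ^ 2 - 1) := by
    rw [eq_div_iff h21, hD]
  rw [hI, hW, hD']
  have h3 : q ^ 2 - 1 = (q - 1) * (q + 1) := by ring
  rw [h3]
  field_simp
  ring

theorem sc13_thm (hSC4 : S_SC4) (hSC8 : S_SC8) (hSC12 : S_SC12) (hUMR : S_UMR) (hLC1 : S_LC1)
    (hINF : S_INF) (hTOT : S_TOT) (hWLD : S_WLD) : S_SC13 := by
  intro p k F L _ _ _ _ _ _ f q t X G₀ ρ P hp hp2 hchar hf hq hF hR hC hG hO
  classical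
  have : Fact p.Prime := ⟨hp⟩
  have : CharP L p := charP_of_injective_algebraMap (algebraMap k L).injective p
  have hq2 : 2 ≤ q := by
    rw [hq]
    calc 2 ≤ p := hp.two_le
      _ = p ^ 1 := (pow_one p).symm
      _ ≤ p ^ f := Nat.pow_le_pow_right hp.pos hf
  have hqz : (2 : ℤ) ≤ (q : ℤ) := by exact_mod_cast hq2
  have : Finite F := Nat.finite_of_card_ne_zero (by rw [hF]; omega)
  let _ : Fintype F := Fintype.ofFinite F
  have : Finite (Matrix.SpecialLinearGroup (Fin 4) F) :=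
    inferInstanceAs (Finite {A : Matrix (Fin 4) (Fin 4) F // A.det = 1})
  have : Finite G₀ := inferInstance
  let _ : Fintype G₀ := Fintype.ofFinite G₀
  have hfro : ∀ x y : L, (x + y) ^ q = x ^ q + y ^ q := by
    intro x y
    rw [hq]
    exact add_pow_expChar_pow x y p f
  have hfros : ∀ x y : L, (x - y) ^ q = x ^ q - y ^ q := by
    intro x y
    have h1 := hfro (x - y) y
    rw [sub_add_cancel] at h1
    rw [h1]
    ring
  have hc : ∀ a : F, (cst k F L a) ^ q = cst k F L a := by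
    intro a
    have h1 : a ^ q = a := by
      rw [← hF, Nat.card_eq_fintype_card]
      exact FiniteField.pow_card a
    show (algebraMap k L (algebraMap F k a)) ^ q = algebraMap k L (algebraMap F k a)
    rw [← map_pow, ← map_pow, h1]
  obtain ⟨W, I, hW, hI, hWI, ⟨nW, hnW⟩, n, hn, hcard⟩ := hWLD p k L G₀ P ρ hp hchar hC.cov.inj
  have hWm : ∀ g : G₀, g ∈ W ↔ g ∈ ram P ρ 1 := by
    intro g
    rw [← hW]
    rfl
  have hent := fun (g : G₀) (hg : g ∈ W) => sc13_entries g.1 (hG g.2)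
    (hSC4 p k F L f q t t 0 X G₀ ρ P hp hp2 hchar hf hq hF hR hC hO g ((hWm g).1 hg))
  obtain ⟨D0, hD0⟩ : ∃ D0 : L, D0 = X 0 * X 1 ^ q - X 0 ^ q * X 1 := ⟨_, rfl⟩
  obtain ⟨Z, hZ⟩ : ∃ Z : Fin 3 → L, SpZ q X D0 Z :=
    ⟨![(X 3 * X 1 ^ q - X 3 ^ q * X 1) / D0, (X 3 ^ q * X 0 - X 3 * X 0 ^ q) / D0,
      (X 2 ^ q * X 0 - X 2 * X 0 ^ q) / D0], ⟨hD0, rfl, rfl, rfl⟩⟩
  obtain ⟨hDne, hX0, hX1, hz0, hz1, -⟩ :=
    hSC8 p k F L f q t t 0 D0 X Z hp hchar hf hq hF hR hZ
  obtain ⟨hov, κ, hκ, hg0, hg1⟩ := hSC12 p k F L f q t D0 X P hp hp2 hchar hf hq hF hR hO hD0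
  obtain ⟨v, hv⟩ : ∃ v : L, v = X 1 / X 0 := ⟨_, rfl⟩
  rw [← hv] at hov hg0 hg1
  have hv0 : v ≠ 0 := by
    rw [hv]
    exact div_ne_zero hX1 hX0
  have hIo : P.ord t = -(Nat.card I : ℤ) := hINF k L G₀ ρ t P I hC.cov hO.neg hI
  have hq21 : (0 : ℤ) < (q : ℤ) ^ 2 - 1 := by nlinarith
  have hvneg : P.ord v < 0 := by
    by_contra hcon
    rw [not_lt] at hcon
    have h1 : 0 ≤ (q : ℤ) * ((q : ℤ) ^ 2 - 1) * P.ord v :=
      mul_nonneg (mul_nonneg (by linarith) hq21.le) hcon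
    have h2 : ((q : ℤ) ^ 2 + 1) * P.ord t < 0 :=
      mul_neg_of_pos_of_neg (by positivity) hO.neg
    linarith
  -- the action
  have a0 : ∀ g ∈ W, ρ g (X 0) = X 0 := by
    intro g hg
    obtain ⟨h00, h10, h20, h30, h11, h21, h31, h12, h22, h32, h33, h13, h23⟩ := hent g hg
    rw [hC.act g 0, Fin.sum_univ_four, h00, h10, h20, h30]
    simp [cst]
  have a1 : ∀ g ∈ W, ρ g (X 1) = X 1 + cst k F L (g.1.1 0 1) * X 0 := by
    intro g hg
    obtain ⟨h00, h10, h20, h30, h11, h21, h31, h12, h22, h32, h33, h13, h23⟩ := hent g hg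
    rw [hC.act g 1, Fin.sum_univ_four, h11, h21, h31]
    simp [cst]
    ring
  have a3 : ∀ g ∈ W, ρ g (X 3) = X 3 + cst k F L (g.1.1 0 3) * X 0 +
      cst k F L (g.1.1 1 3) * X 1 + cst k F L (-g.1.1 0 1) * X 2 := by
    intro g hg
    obtain ⟨h00, h10, h20, h30, h11, h21, h31, h12, h22, h32, h33, h13, h23⟩ := hent g hg
    rw [hC.act g 3, Fin.sum_univ_four, h33, h23]
    simp [cst]
    ring
  have av : ∀ g ∈ W, ρ g v = v + cst k F L (g.1.1 0 1) := by
    intro g hg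
    rw [hv, map_div₀, a0 g hg, a1 g hg]
    field_simp
  have hadd : ∀ g ∈ W, ∀ h ∈ W, (g * h).1.1 0 1 = g.1.1 0 1 + h.1.1 0 1 := by
    intro g hg h hh
    obtain ⟨h00, -⟩ := hent g hg
    obtain ⟨-, -, -, -, h11, h21, h31, -⟩ := hent h hh
    rw [Subgroup.coe_mul, Matrix.SpecialLinearGroup.coe_mul, Matrix.mul_apply, Fin.sum_univ_four,
      h00, h11, h21, h31]
    ring
  have hone : (1 : G₀).1.1 0 1 = 0 := by
    show (1 : Matrix (Fin 4) (Fin 4) F) 0 1 = 0
    simp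
  have hinv : ∀ g ∈ W, (g⁻¹).1.1 0 1 = -g.1.1 0 1 := by
    intro g hg
    have h1 := hadd g hg g⁻¹ (W.inv_mem hg)
    rw [mul_inv_cancel, hone] at h1
    exact (neg_eq_of_add_eq_zero_right h1.symm).symm
  obtain ⟨M, hM⟩ : ∃ M : Subgroup G₀, ∀ g, g ∈ M ↔ g ∈ W ∧ g.1.1 0 1 = 0 := by
    refine ⟨{ carrier := {g | g ∈ W ∧ g.1.1 0 1 = 0}
              mul_mem' := ?_
              one_mem' := ⟨W.one_mem, hone⟩
              inv_mem' := ?_ }, fun g => Iff.rfl⟩
    · rintro a b ⟨ha, ha'⟩ ⟨hb, hb'⟩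
      refine ⟨W.mul_mem ha hb, ?_⟩
      rw [hadd a ha b hb, ha', hb', add_zero]
    · rintro a ⟨ha, ha'⟩
      refine ⟨W.inv_mem ha, ?_⟩
      rw [hinv a ha, ha', neg_zero]
  have hMW : M ≤ W := fun g hg => ((hM g).1 hg).1
  have hnor : ∀ g ∈ W, ∀ m ∈ M, g * m * g⁻¹ ∈ M := by
    intro g hg m hm
    obtain ⟨hm1, hm2⟩ := (hM m).1 hm
    refine (hM _).2 ⟨W.mul_mem (W.mul_mem hg hm1) (W.inv_mem hg), ?_⟩
    rw [hadd _ (W.mul_mem hg hm1) _ (W.inv_mem hg), hadd g hg m hm1, hinv g hg, hm2]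
    ring
  -- the order of `v ^ q - v`
  have hcv : ∀ a : F, a ≠ 0 → cst k F L a ≠ 0 ∧ P.ord (cst k F L a) = 0 := by
    intro a ha
    have h1 : algebraMap F k a ≠ 0 := by
      rw [Ne, map_eq_zero]
      exact ha
    refine ⟨?_, P.ord_const _ h1⟩
    show algebraMap k L (algebraMap F k a) ≠ 0
    rw [Ne, map_eq_zero]
    exact h1
  have hA : v ^ q - v ≠ 0 ∧ P.ord (v ^ q - v) = q * P.ord v := by
    have hge : P.Ge (-v) (P.ord (v ^ q) + 1) := by
      refine Or.inr ?_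
      rw [P.ord_neg, P.ord_pow hv0]
      nlinarith
    obtain ⟨h1, h2⟩ := P.ord_add_of_lt (pow_ne_zero q hv0) hge
    rw [← sub_eq_add_neg] at h1 h2
    refine ⟨h1, ?_⟩
    rw [h2, P.ord_pow hv0]
  have hAf : ∀ g ∈ W, ρ g (v ^ q - v) = v ^ q - v := by
    intro g hg
    rw [map_sub, map_pow, av g hg, hfro, hc]
    ring
  have hWpos : 0 < Nat.card W := Nat.card_pos
  have hIpos : 0 < Nat.card I := Nat.card_pos
  have hnpos : 0 < n := by
    rcases Nat.eq_zero_or_pos n with h | h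
    · rw [h, zero_mul] at hcard
      omega
    · exact h
  obtain ⟨D, hD1, hDp, hDo, hDq⟩ : ∃ D : ℕ, 1 ≤ D ∧ ¬ p ∣ D ∧
      (q : ℤ) * P.ord v = -((D * Nat.card W : ℕ) : ℤ) ∧
      (D : ℤ) * ((q : ℤ) ^ 2 - 1) = n * ((q : ℤ) ^ 2 + 1) := by
    obtain ⟨z, hz⟩ := hTOT k L G₀ P ρ W hC.cov.inj (fun n hn => ((hWm n).1 hn).1) _ hA.1 hAf
    rw [hA.2] at hz
    have hcI : (Nat.card I : ℤ) = n * Nat.card W := by exact_mod_cast hcard
    have h4 : ((q : ℤ) ^ 2 - 1) * z = -(n * ((q : ℤ) ^ 2 + 1)) := by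
      have h5 : (Nat.card W : ℤ) * (((q : ℤ) ^ 2 - 1) * z) =
          Nat.card W * (-(n * ((q : ℤ) ^ 2 + 1))) := by
        calc (Nat.card W : ℤ) * (((q : ℤ) ^ 2 - 1) * z)
            = ((q : ℤ) ^ 2 - 1) * (Nat.card W * z) := by ring
          _ = ((q : ℤ) ^ 2 - 1) * (q * P.ord v) := by rw [hz]
          _ = (q : ℤ) * ((q : ℤ) ^ 2 - 1) * P.ord v := by ring
          _ = Nat.card W * (-(n * ((q : ℤ) ^ 2 + 1))) := by
              rw [hov, hIo, hcI]
              ring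
      exact mul_left_cancel₀ (by exact_mod_cast hWpos.ne') h5
    have h5 : 0 < (n : ℤ) * ((q : ℤ) ^ 2 + 1) :=
      mul_pos (by exact_mod_cast hnpos) (by positivity)
    have hzneg : z < 0 := by
      by_contra hcon
      rw [not_lt] at hcon
      have := mul_nonneg hq21.le hcon
      linarith
    obtain ⟨D, hD⟩ : ∃ D : ℕ, z = -(D : ℤ) := ⟨z.natAbs, by omega⟩
    have hDq : (D : ℤ) * ((q : ℤ) ^ 2 - 1) = n * ((q : ℤ) ^ 2 + 1) := by
      rw [hD] at h4
      linarith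
    refine ⟨D, by omega, ?_, ?_, hDq⟩
    · intro hpD
      have hpq : (p : ℤ) ∣ (q : ℤ) := by
        have : p ∣ q := by
          rw [hq]
          exact dvd_pow_self p (by omega)
        exact_mod_cast this
      have h6 : (p : ℤ) ∣ (n : ℤ) := by
        have h7 : (p : ℤ) ∣ (D : ℤ) * ((q : ℤ) ^ 2 - 1) :=
          Dvd.dvd.mul_right (by exact_mod_cast hpD) _
        have h8 : (n : ℤ) = D * ((q : ℤ) ^ 2 - 1) - n * q * q := by
          rw [hDq]
          ring
        rw [h8]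
        exact dvd_sub h7 (Dvd.dvd.mul_left hpq _)
      exact hn (by exact_mod_cast h6)
    · rw [hz, hD]
      push_cast
      ring
  -- the quotient `W / M`
  have hmain := hUMR p k F L G₀ f q 1 D P ρ W M (fun g => ![g.1.1 0 1]) ![v] (fun _ => D) hp hchar
    hf hq hF le_rfl hC.cov.inj (fun g hg => (hWm g).1 hg) hMW
    (by
      intro g hg
      rw [hM]
      constructor
      · intro h
        funext i
        fin_cases i
        exact h.2
      · intro h
        exact ⟨hg, congrFun h 0⟩)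
    (by
      intro g hg g' hg'
      funext i
      fin_cases i
      exact hadd g hg g' hg')
    (by
      intro g hg i
      fin_cases i
      exact av g hg)
    (by
      intro a ha
      refine ⟨hD1, hDp, le_rfl, 0, fun w _ => map_zero _, ?_⟩
      have ha0 : a 0 ≠ 0 := by
        intro h
        apply ha
        funext i
        fin_cases i
        exact h
      rw [zero_pow hp.ne_zero, sub_zero, sub_zero, Fin.sum_univ_one]
      show cst k F L (a 0) * (v ^ q - v) ≠ 0 ∧ P.ord (cst k F L (a 0) * (v ^ q - v)) = _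
      refine ⟨mul_ne_zero (hcv _ ha0).1 hA.1, ?_⟩
      rw [P.ord_mul _ _ (hcv _ ha0).1 hA.1, (hcv _ ha0).2, hA.2, zero_add, hDo])
  obtain ⟨m1, m2, m3, -⟩ := hmain
  rw [pow_one] at m1
  have hcos := m3 (fun _ _ => rfl)
  have hovM : P.ord v = -((D * Nat.card M : ℕ) : ℤ) := by
    have h1 : (q : ℤ) * P.ord v = q * (-((D * Nat.card M : ℕ) : ℤ)) := by
      rw [hDo, m1]
      push_cast
      ring
    exact mul_left_cancel₀ (by linarith) h1
  have hMpos : 0 < Nat.card M := Nat.card_pos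
  -- the group `M`
  have a1M : ∀ g ∈ M, ρ g (X 1) = X 1 := by
    intro g hg
    obtain ⟨hg1, hg2⟩ := (hM g).1 hg
    rw [a1 g hg1, hg2]
    simp [cst]
  have a3M : ∀ g ∈ M, ρ g (X 3) = X 3 + cst k F L (g.1.1 0 3) * X 0 +
      cst k F L (g.1.1 1 3) * X 1 := by
    intro g hg
    obtain ⟨hg1, hg2⟩ := (hM g).1 hg
    rw [a3 g hg1, hg2]
    simp [cst]
  have avM : ∀ g ∈ M, ρ g v = v := by
    intro g hg
    rw [hv, map_div₀, a0 g (hMW hg), a1M g hg]
  have aDM : ∀ g ∈ M, ρ g D0 = D0 := by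
    intro g hg
    rw [hD0, map_sub, map_mul, map_mul, map_pow, map_pow, a0 g (hMW hg), a1M g hg]
  have aZ0 : ∀ g ∈ M, ρ g (Z 0) = Z 0 + cst k F L (g.1.1 0 3) := by
    intro g hg
    rw [hZ.z0, map_div₀, map_sub, map_mul, map_mul, map_pow, map_pow, aDM g hg, a1M g hg,
      a3M g hg, hfro, hfro, mul_pow, mul_pow, hc, hc]
    have h1 : (X 3 + cst k F L (g.1.1 0 3) * X 0 + cst k F L (g.1.1 1 3) * X 1) * X 1 ^ q -
        (X 3 ^ q + cst k F L (g.1.1 0 3) * X 0 ^ q + cst k F L (g.1.1 1 3) * X 1 ^ q) * X 1 =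
        (X 3 * X 1 ^ q - X 3 ^ q * X 1) + cst k F L (g.1.1 0 3) * D0 := by
      rw [hD0]
      ring
    rw [h1, add_div, mul_div_assoc, div_self hDne, mul_one]
  have aZ1 : ∀ g ∈ M, ρ g (Z 1) = Z 1 + cst k F L (g.1.1 1 3) := by
    intro g hg
    rw [hZ.z1, map_div₀, map_sub, map_mul, map_mul, map_pow, map_pow, aDM g hg, a0 g (hMW hg),
      a3M g hg, hfro, hfro, mul_pow, mul_pow, hc, hc]
    have h1 : (X 3 ^ q + cst k F L (g.1.1 0 3) * X 0 ^ q + cst k F L (g.1.1 1 3) * X 1 ^ q) * X 0 -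
        (X 3 + cst k F L (g.1.1 0 3) * X 0 + cst k F L (g.1.1 1 3) * X 1) * X 0 ^ q =
        (X 3 ^ q * X 0 - X 3 * X 0 ^ q) + cst k F L (g.1.1 1 3) * D0 := by
      rw [hD0]
      ring
    rw [h1, add_div, mul_div_assoc, div_self hDne, mul_one]
  -- Artin-Schreier reduction
  have hred : ∀ a : Fin 2 → F, a ≠ 0 → ∃ g : L, (∀ w ∈ M, ρ w g = g) ∧
      (∑ i, cst k F L (a i) * ((![Z 0, Z 1] : Fin 2 → L) i ^ q - (![Z 0, Z 1] : Fin 2 → L) i) -
        (g ^ p - g)) ≠ 0 ∧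
      P.ord (∑ i, cst k F L (a i) *
        ((![Z 0, Z 1] : Fin 2 → L) i ^ q - (![Z 0, Z 1] : Fin 2 → L) i) - (g ^ p - g)) =
        (if a 0 = 0 then 1 else 2) * P.ord v := by
    intro a ha
    obtain ⟨b0, hb0⟩ := IsAlgClosed.exists_pow_nat_eq (κ * algebraMap F k (a 0))
      (by omega : 0 < q)
    obtain ⟨b1, hb1⟩ := IsAlgClosed.exists_pow_nat_eq (κ * algebraMap F k (a 1))
      (by omega : 0 < q)
    obtain ⟨y, hy⟩ : ∃ y : L, y = algebraMap k L b0 * v ^ 2 - algebraMap k L b1 * v := ⟨_, rfl⟩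
    have hyq : y ^ q = algebraMap k L κ * (cst k F L (a 0) * v ^ (2 * q) -
        cst k F L (a 1) * v ^ q) := by
      rw [hy, hfros, mul_pow, mul_pow, ← map_pow, ← map_pow, hb0, hb1, map_mul, map_mul,
        ← pow_mul]
      show algebraMap k L κ * cst k F L (a 0) * _ - algebraMap k L κ * cst k F L (a 1) * _ = _
      ring
    have hyo : y ≠ 0 ∧ P.ord y = (if a 0 = 0 then 1 else 2) * P.ord v := by
      by_cases h0 : a 0 = 0
      · have h1 : a 1 ≠ 0 := by
          intro h1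
          apply ha
          funext i
          fin_cases i
          · exact h0
          · exact h1
        have hb00 : b0 = 0 := by
          rw [h0, map_zero, mul_zero] at hb0
          exact pow_eq_zero_iff (by omega) |>.1 hb0
        have hb10 : b1 ≠ 0 := by
          intro h
          rw [h, zero_pow (by omega)] at hb1
          have h2 : algebraMap F k (a 1) ≠ 0 := by
            rw [Ne, map_eq_zero]
            exact h1
          exact mul_ne_zero hκ h2 hb1.symm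
        have hb1L : algebraMap k L b1 ≠ 0 := by
          rw [Ne, map_eq_zero]
          exact hb10
        have hy' : y = -(algebraMap k L b1 * v) := by
          rw [hy, hb00, map_zero]
          ring
        rw [if_pos h0, one_mul, hy', P.ord_neg, P.ord_mul _ _ hb1L hv0, P.ord_const _ hb10,
          zero_add]
        exact ⟨neg_ne_zero.2 (mul_ne_zero hb1L hv0), rfl⟩
      · have hb00 : b0 ≠ 0 := by
          intro h
          rw [h, zero_pow (by omega)] at hb0
          have h2 : algebraMap F k (a 0) ≠ 0 := by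
            rw [Ne, map_eq_zero]
            exact h0
          exact mul_ne_zero hκ h2 hb0.symm
        have hb0L : algebraMap k L b0 ≠ 0 := by
          rw [Ne, map_eq_zero]
          exact hb00
        have hm0 : algebraMap k L b0 * v ^ 2 ≠ 0 := mul_ne_zero hb0L (pow_ne_zero 2 hv0)
        have ho0 : P.ord (algebraMap k L b0 * v ^ 2) = 2 * P.ord v := by
          rw [P.ord_mul _ _ hb0L (pow_ne_zero 2 hv0), P.ord_const _ hb00, P.ord_pow hv0, zero_add]
          push_cast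
          ring
        have hge : P.Ge (-(algebraMap k L b1 * v)) (P.ord (algebraMap k L b0 * v ^ 2) + 1) := by
          rw [ho0]
          refine P.ge_mono (P.ge_neg (P.ge_mul (P.ge_const b1) (P.ge_ord v))) ?_
          linarith
        obtain ⟨h1, h2⟩ := P.ord_add_of_lt hm0 hge
        rw [← sub_eq_add_neg, ← hy] at h1 h2
        rw [if_neg h0, h2, ho0]
        exact ⟨h1, rfl⟩
    refine ⟨∑ i ∈ range f, y ^ p ^ i, ?_, ?_⟩
    · intro w hw
      rw [map_sum]
      refine Finset.sum_congr rfl fun i _ => ?_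
      have h1 : ρ w y = y := by
        rw [hy, map_sub, map_mul, map_mul, map_pow, avM w hw, AlgEquiv.commutes,
          AlgEquiv.commutes]
      rw [map_pow, h1]
    · have hgp : (∑ i ∈ range f, y ^ p ^ i) ^ p - ∑ i ∈ range f, y ^ p ^ i = y ^ q - y := by
        rw [sum_pow_char]
        have h1 : ∀ i ∈ range f, (y ^ p ^ i) ^ p = y ^ p ^ (i + 1) := by
          intro i _
          rw [← pow_mul, ← pow_succ]
        rw [Finset.sum_congr rfl h1, ← Finset.sum_sub_distrib,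
          Finset.sum_range_sub (fun i => y ^ p ^ i), pow_zero, pow_one, ← hq]
      rw [hgp, Fin.sum_univ_two]
      show (cst k F L (a 0) * (Z 0 ^ q - Z 0) + cst k F L (a 1) * (Z 1 ^ q - Z 1) -
          (y ^ q - y)) ≠ 0 ∧ P.ord (cst k F L (a 0) * (Z 0 ^ q - Z 0) +
          cst k F L (a 1) * (Z 1 ^ q - Z 1) - (y ^ q - y)) = _
      have hge : P.Ge (cst k F L (a 0) * (X 1 ^ (2 * q) / D0 ^ (q + 1) -
          algebraMap k L κ * v ^ (2 * q)) - cst k F L (a 1) * (X 0 ^ q * X 1 ^ q / D0 ^ (q + 1) -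
          algebraMap k L κ * v ^ q)) (P.ord y + 1) := by
        have h1 : P.ord y + 1 ≤ 0 + 0 := by
          rw [hyo.2]
          split_ifs <;> linarith
        exact P.ge_mono (P.ge_sub (P.ge_mul (P.ge_const _) hg0) (P.ge_mul (P.ge_const _) hg1)) h1
      obtain ⟨h1, h2⟩ := P.ord_add_of_lt hyo.1 hge
      have h3 : cst k F L (a 0) * (Z 0 ^ q - Z 0) + cst k F L (a 1) * (Z 1 ^ q - Z 1) -
          (y ^ q - y) = y + (cst k F L (a 0) * (X 1 ^ (2 * q) / D0 ^ (q + 1) -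
          algebraMap k L κ * v ^ (2 * q)) - cst k F L (a 1) * (X 0 ^ q * X 1 ^ q / D0 ^ (q + 1) -
          algebraMap k L κ * v ^ q)) := by
        rw [hz0, hz1, hyq]
        ring
      rw [h3, h2]
      exact ⟨h1, hyo.2⟩
  have hmain2 := hUMR p k F L G₀ f q 2 (2 * D) P ρ M ⊥ (fun g => ![g.1.1 0 3, g.1.1 1 3])
    ![Z 0, Z 1] (fun a => if a 0 = 0 then D else 2 * D) hp hchar hf hq hF (by norm_num)
    hC.cov.inj (fun g hg => (hWm g).1 (hMW hg)) bot_le
    (by
      intro g hg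
      rw [Subgroup.mem_bot]
      constructor
      · intro h
        funext i
        rw [h]
        fin_cases i
        · show (1 : Matrix (Fin 4) (Fin 4) F) 0 3 = 0
          simp
        · show (1 : Matrix (Fin 4) (Fin 4) F) 1 3 = 0
          simp
      · intro h
        have h1 : g.1.1 0 3 = 0 := congrFun h 0
        have h2 : g.1.1 1 3 = 0 := congrFun h 1
        obtain ⟨hg1, hg2⟩ := (hM g).1 hg
        obtain ⟨h00, h10, h20, h30, h11, h21, h31, h12, h22, h32, h33, h13, h23⟩ := hent g hg1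
        rw [hg2, neg_zero] at h23
        rw [h2] at h13
        apply Subtype.ext
        apply Subtype.ext
        show g.1.1 = (1 : Matrix (Fin 4) (Fin 4) F)
        ext i j
        fin_cases i <;> fin_cases j
        · simpa using h00
        · simpa using hg2
        · simpa using h13.symm
        · simpa using h1
        · simpa using h10
        · simpa using h11
        · simpa using h12
        · simpa using h2
        · simpa using h20
        · simpa using h21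
        · simpa using h22
        · simpa using h23
        · simpa using h30
        · simpa using h31
        · simpa using h32
        · simpa using h33)
    (by
      intro g hg g' hg'
      obtain ⟨hg1, hg2⟩ := (hM g).1 hg
      obtain ⟨hg1', hg2'⟩ := (hM g').1 hg'
      obtain ⟨h00, h10, h20, h30, h11, h21, h31, h12, h22, h32, h33, h13, h23⟩ := hent g hg1
      obtain ⟨k00, k10, k20, k30, k11, k21, k31, k12, k22, k32, k33, k13, k23⟩ := hent g' hg1'
      rw [hg2', neg_zero] at k23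
      have hm : ∀ i j, (g * g').1.1 i j = ∑ l, g.1.1 i l * g'.1.1 l j := by
        intro i j
        rw [Subgroup.coe_mul, Matrix.SpecialLinearGroup.coe_mul, Matrix.mul_apply]
      funext i
      fin_cases i
      · show (g * g').1.1 0 3 = g.1.1 0 3 + g'.1.1 0 3
        rw [hm, Fin.sum_univ_four, h00, hg2, k23, k33]
        ring
      · show (g * g').1.1 1 3 = g.1.1 1 3 + g'.1.1 1 3
        rw [hm, Fin.sum_univ_four, h10, h11, h12, k23, k33]
        ring)
    (by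
      intro g hg i
      fin_cases i
      · exact aZ0 g hg
      · exact aZ1 g hg)
    (by
      intro a ha
      obtain ⟨g, hg1, hg2, hg3⟩ := hred a ha
      refine ⟨?_, ?_, ?_, g, hg1, hg2, ?_⟩
      · show 1 ≤ if a 0 = 0 then D else 2 * D
        split_ifs <;> omega
      · show ¬ p ∣ if a 0 = 0 then D else 2 * D
        split_ifs
        · exact hDp
        · intro h
          rcases (Nat.Prime.dvd_mul hp).1 h with h1 | h1
          · exact hp2 ((Nat.prime_dvd_prime_iff_eq hp Nat.prime_two).1 h1)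
          · exact hDp h1
      · show (if a 0 = 0 then D else 2 * D) ≤ 2 * D
        split_ifs <;> omega
      · rw [hg3, hovM]
        show _ = -((((if a 0 = 0 then D else 2 * D) * Nat.card M : ℕ)) : ℤ)
        split_ifs
        · push_cast
          ring
        · push_cast
          ring)
  obtain ⟨n1, n2, -, n4⟩ := hmain2
  obtain ⟨l, hl, hU⟩ := n4 rfl ⟨![1, 0], by
    intro h
    have := congrFun h 0
    simp at this, by simp⟩
  refine ⟨?_, ?_⟩
  · intro g hgS hgH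
    obtain ⟨r00, r10, r20, r30, r11, r21, r31, r12, r22, r32, r33, r13, r23⟩ :=
      sc13_entries g hgS hgH
    obtain ⟨w, hw, hcw⟩ := m2 ![g.1 0 1]
    have hw01 : w.1.1 0 1 = g.1 0 1 := congrFun hcw 0
    obtain ⟨m, hm, hcm⟩ := n2 ![g.1 0 3 - w.1.1 0 3 - w.1.1 0 1 * (g.1 1 3 - w.1.1 1 3),
      g.1 1 3 - w.1.1 1 3]
    have hm03 : m.1.1 0 3 = g.1 0 3 - w.1.1 0 3 - w.1.1 0 1 * (g.1 1 3 - w.1.1 1 3) :=
      congrFun hcm 0
    have hm13 : m.1.1 1 3 = g.1 1 3 - w.1.1 1 3 := congrFun hcm 1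
    obtain ⟨hm1, hm2⟩ := (hM m).1 hm
    obtain ⟨h00, h10, h20, h30, h11, h21, h31, h12, h22, h32, h33, h13, h23⟩ := hent w hw
    obtain ⟨k00, k10, k20, k30, k11, k21, k31, k12, k22, k32, k33, k13, k23⟩ := hent m hm1
    rw [hm2, neg_zero] at k23
    have h3 : (w * m).1 = g := by
      apply Subtype.ext
      have hmul : ∀ i j, (w * m).1.1 i j = ∑ l, w.1.1 i l * m.1.1 l j := by
        intro i j
        rw [Subgroup.coe_mul, Matrix.SpecialLinearGroup.coe_mul, Matrix.mul_apply]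
      show (w * m).1.1 = g.1
      ext i j
      rw [hmul, Fin.sum_univ_four]
      fin_cases i <;> fin_cases j
      · show w.1.1 0 0 * m.1.1 0 0 + w.1.1 0 1 * m.1.1 1 0 + w.1.1 0 2 * m.1.1 2 0 +
          w.1.1 0 3 * m.1.1 3 0 = g.1 0 0
        rw [h00, k00, k10, k20, k30, r00]
        ring
      · show w.1.1 0 0 * m.1.1 0 1 + w.1.1 0 1 * m.1.1 1 1 + w.1.1 0 2 * m.1.1 2 1 +
          w.1.1 0 3 * m.1.1 3 1 = g.1 0 1
        rw [hm2, k11, k21, k31, hw01]
        ring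
      · show w.1.1 0 0 * m.1.1 0 2 + w.1.1 0 1 * m.1.1 1 2 + w.1.1 0 2 * m.1.1 2 2 +
          w.1.1 0 3 * m.1.1 3 2 = g.1 0 2
        rw [h00, k12, k22, k32, ← k13, ← h13, hm13, ← r13]
        ring
      · show w.1.1 0 0 * m.1.1 0 3 + w.1.1 0 1 * m.1.1 1 3 + w.1.1 0 2 * m.1.1 2 3 +
          w.1.1 0 3 * m.1.1 3 3 = g.1 0 3
        rw [h00, hm03, hm13, k23, k33]
        ring
      · show w.1.1 1 0 * m.1.1 0 0 + w.1.1 1 1 * m.1.1 1 0 + w.1.1 1 2 * m.1.1 2 0 +
          w.1.1 1 3 * m.1.1 3 0 = g.1 1 0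
        rw [h10, k10, k20, k30, r10]
        ring
      · show w.1.1 1 0 * m.1.1 0 1 + w.1.1 1 1 * m.1.1 1 1 + w.1.1 1 2 * m.1.1 2 1 +
          w.1.1 1 3 * m.1.1 3 1 = g.1 1 1
        rw [h10, h11, k11, k21, k31, r11]
        ring
      · show w.1.1 1 0 * m.1.1 0 2 + w.1.1 1 1 * m.1.1 1 2 + w.1.1 1 2 * m.1.1 2 2 +
          w.1.1 1 3 * m.1.1 3 2 = g.1 1 2
        rw [h10, k12, h12, k32, r12]
        ring
      · show w.1.1 1 0 * m.1.1 0 3 + w.1.1 1 1 * m.1.1 1 3 + w.1.1 1 2 * m.1.1 2 3 +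
          w.1.1 1 3 * m.1.1 3 3 = g.1 1 3
        rw [h10, h11, hm13, k23, k33]
        ring
      · show w.1.1 2 0 * m.1.1 0 0 + w.1.1 2 1 * m.1.1 1 0 + w.1.1 2 2 * m.1.1 2 0 +
          w.1.1 2 3 * m.1.1 3 0 = g.1 2 0
        rw [h20, h21, k20, k30, r20]
        ring
      · show w.1.1 2 0 * m.1.1 0 1 + w.1.1 2 1 * m.1.1 1 1 + w.1.1 2 2 * m.1.1 2 1 +
          w.1.1 2 3 * m.1.1 3 1 = g.1 2 1
        rw [h20, h21, k21, k31, r21]
        ring
      · show w.1.1 2 0 * m.1.1 0 2 + w.1.1 2 1 * m.1.1 1 2 + w.1.1 2 2 * m.1.1 2 2 +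
          w.1.1 2 3 * m.1.1 3 2 = g.1 2 2
        rw [h20, h21, h22, k22, k32, r22]
        ring
      · show w.1.1 2 0 * m.1.1 0 3 + w.1.1 2 1 * m.1.1 1 3 + w.1.1 2 2 * m.1.1 2 3 +
          w.1.1 2 3 * m.1.1 3 3 = g.1 2 3
        rw [h20, h21, k23, k33, h23, hw01, r23]
        ring
      · show w.1.1 3 0 * m.1.1 0 0 + w.1.1 3 1 * m.1.1 1 0 + w.1.1 3 2 * m.1.1 2 0 +
          w.1.1 3 3 * m.1.1 3 0 = g.1 3 0
        rw [h30, h31, h32, k30, r30]
        ring
      · show w.1.1 3 0 * m.1.1 0 1 + w.1.1 3 1 * m.1.1 1 1 + w.1.1 3 2 * m.1.1 2 1 +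
          w.1.1 3 3 * m.1.1 3 1 = g.1 3 1
        rw [h30, h31, h32, k31, r31]
        ring
      · show w.1.1 3 0 * m.1.1 0 2 + w.1.1 3 1 * m.1.1 1 2 + w.1.1 3 2 * m.1.1 2 2 +
          w.1.1 3 3 * m.1.1 3 2 = g.1 3 2
        rw [h30, h31, h32, k32, r32]
        ring
      · show w.1.1 3 0 * m.1.1 0 3 + w.1.1 3 1 * m.1.1 1 3 + w.1.1 3 2 * m.1.1 2 3 +
          w.1.1 3 3 * m.1.1 3 3 = g.1 3 3
        rw [h30, h31, h32, h33, k33, r33]
        ring
    rw [← h3]
    exact (w * m).2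
  · have h1 := hLC1 p k L G₀ P ρ I W M (2 * D) D l hp hchar hC.cov.inj hI hW hMW hnor hcos
      (by omega) hl hU
    have hq0 : (q : ℚ) ≠ 0 := Nat.cast_ne_zero.2 (by omega)
    have hqQ : (2 : ℚ) ≤ q := by exact_mod_cast hq2
    have hval := sc13_val q n D (Nat.card M) (Nat.card W) (Nat.card I) hq0 (by linarith)
      (by linarith) (Nat.cast_ne_zero.2 (by omega)) (Nat.cast_ne_zero.2 (by omega))
      (by rw [m1]; push_cast; ring) (by rw [hcard]; push_cast; ring) (by exact_mod_cast hDq)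
    rw [← hval]
    have h2 : ((2 * D : ℕ) : ℚ) = 2 * (D : ℚ) := by push_cast; ring
    rw [h2] at h1
    exact h1

end Pool.CND
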